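import Pool.Agent.H41.Tr4

set_option autoImplicit false

open Pool.Agent.H41.Tr

theorem Pool.Agent.Results.MP_7d00fe_an.Lower.result :
    ∀ p : ℝ, 0 < p → p < 2 → ∀ ε : ℝ, 0 < ε → ∀ᶠ n : ℕ in Filter.atTop,
      (n : ℝ) ^ (min (1 / 2) (1 / p - 1 / 2) - ε) ≤ min (Nreal p n) (Ncomp p n) :=
  fun _ p0 p2 _ hε => (growth p0 p2 hε).mono fun _ h => le_min h.1 (h.1.trans h.2.1)
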